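import Pool.Agent.Work.MP_bf98aa_gt.Kg.BMain
import Pool.Agent.Work.MP_bf98aa_gt.Kg.Res
import Pool.Agent.Work.MP_bf98aa_gt.Kg.RDef

/-!
A path of symplectic forms on a closed 6-manifold, starting at a Kaehler form of a complex structure
whose canonical class is semipositive with positive cube, along which the first Chern class times
the square of the form changes sign.
-/

set_option autoImplicit false

open scoped Manifold ContDiff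

namespace Pool.Agent.Results.MP_bf98aa_gt.C1SignChange

open Pool.Agent.Work.MP_bf98aa_gt.Th Pool.Agent.Work.MP_bf98aa_gt.Cp
  Pool.Agent.Work.MP_bf98aa_gt.Kg

theorem result :
    ∃ (M : Type) (_ : TopologicalSpace M) (_ : T2Space M) (_ : CompactSpace M)
      (_ : ConnectedSpace M) (_ : ChartedSpace (Sp (Fin 3)) M)
      (_ : IsManifold 𝓘(ℝ, Sp (Fin 3)) ∞ M)
      (η : Fin 3 → Form (Sp (Fin 3)) M 2) (w : ℝ → Form (Sp (Fin 3)) M 2)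
      (J : Endo (Sp (Fin 3)) M) (ρ : Form (Sp (Fin 3)) M 2)
      (a : Fin 3 × Fin 2 → Form (Sp (Fin 3)) M 1),
      (∀ i, (η i).Closed) ∧ (∀ s, w s = comb η ![1, s ^ 2, s]) ∧
      (∀ s ∈ Set.Icc (0 : ℝ) 1, SympC1 (w s) ρ) ∧
      Kaehler (w 0) J ∧ RepC1 J ρ ∧ SemiNeg ρ J ∧ Splits ρ a ∧
      (∃ c ≠ 0, Integral (w 0) (coef1 a) c) ∧
      (∃ c < 0, Int3 (w 0) ρ ρ ρ c) ∧ (∃ c < 0, Int3 (w 0) ρ (w 0) (w 0) c) ∧
      (∃ c > 0, Int3 (w 1) ρ (w 1) (w 1) c) ∧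
      ∀ s ∈ Set.Icc (0 : ℝ) 1, ∃ c > 0, Int3 (w s) ρ ρ (w s) c := by
  obtain ⟨M, i1, i2, i3, i4, i5, i6, η, w, J, ρ, σ, a, h1, h2, h3, h4, h5, h6, h7, h8, h9, h10,
    h11, h12, h13⟩ := Pool.Agent.Work.MP_bf98aa_gt.Kg.goal
  exact ⟨M, i1, i2, i3, i4, i5, i6, η, w, J, ρ, a, h1, h2, path_c1 h1 h2 h3 h4 h7,
    ⟨(h3 0 (by simp)).1, h4, h5, h6⟩, h7, ⟨h9, h8⟩, ⟨h10, σ, h12, h11⟩, h13⟩

end Pool.Agent.Results.MP_bf98aa_gt.C1SignChange
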