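import Pool.Agent.Work.MP_bf98aa_gt.B3.Final
import Pool.Agent.Work.MP_bf98aa_gt.B3.StmtB

/-!
Infinitely many simply connected symplectic Calabi-Yau 6-manifolds with second Betti number one and
third Betti number zero, and the existence question on them for nondegenerate forms with trivial
canonical bundle.
-/

set_option autoImplicit false

namespace Pool.Agent.Results.MP_bf98aa_gt.CalabiYauBettiCP3

open Pool.Agent.Work.MP_bf98aa_gt.Th Pool.Agent.Work.MP_bf98aa_gt.Cy Pool.Agent.Work.MP_bf98aa_gt.B3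

theorem result : ∃ (X : ℕ → Mfd (Sp (Fin 3))) (η : ∀ k, Form (Sp (Fin 3)) (X k).M 2),
    (∀ k, Q1CY 3 (X k).M ∧ NoH3 (X k) ∧ (η k).Closed ∧ (η k).Nondeg ∧ Spans (η k) ∧
      CalabiYau (η k) ∧ UnitSphere (η k) ∧ BigDomain (η k) k) ∧
      ∀ k l, k ≠ l → ¬(X k).Diffeo (X l) := by
  obtain ⟨X, η, h, h'⟩ := b3_family
  exact ⟨X, η, fun k => ⟨(h k).1, (h k).2.2.2.2.1, (h k).2.1, (h k).2.2.1, (h k).2.2.2.1,
    (h k).2.2.2.2.2⟩, h'⟩

end Pool.Agent.Results.MP_bf98aa_gt.CalabiYauBettiCP3
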