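import Pool.Agent.Work.MP_bf98aa_gt.Th.Final

/-!
Every rational form of degree `n ≥ 3` with a positive value is the form `x ↦ ∫ x ^ n` on the second
de Rham cohomology of a closed symplectic `2 n`-manifold with vanishing first de Rham cohomology.
-/

set_option autoImplicit false

open scoped Manifold ContDiff

namespace Pool.Agent.Results.MP_bf98aa_gt.CupFormRealisation

open Pool.Agent.Work.MP_bf98aa_gt.Th

theorem result (n r : ℕ) (hn : 3 ≤ n) (μ : MvPolynomial (Fin r) ℚ) (hμ : μ.IsHomogeneous n)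
    (a : Fin r → ℝ) (ha : 0 < MvPolynomial.aeval a μ) :
    ∃ (M : Type) (_ : TopologicalSpace M) (_ : T2Space M) (_ : CompactSpace M)
      (_ : ConnectedSpace M) (_ : ChartedSpace (Sp (Fin n)) M)
      (_ : IsManifold 𝓘(ℝ, Sp (Fin n)) ∞ M) (η : Fin r → Form (Sp (Fin n)) M 2),
      (∀ b : Form (Sp (Fin n)) M 1, b.Closed → b.Exact) ∧ (∀ i, (η i).Closed) ∧
      (∀ w : Form (Sp (Fin n)) M 2, w.Closed → ∃! x : Fin r → ℝ, (w.sub (comb η x)).Exact) ∧
      (comb η a).Nondeg ∧
      ∀ x, HasIntegral (comb η a) (comb η x) (MvPolynomial.aeval x μ) :=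
  realise n r hn μ hμ a ha

end Pool.Agent.Results.MP_bf98aa_gt.CupFormRealisation
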