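import Pool.Agent.Work.MP_bf98aa_gt.Ns.Main

/-!
Under the hypotheses of the problem the class contains a near-symplectic form whose singular set
lies in one ball and which is homotopic to the given nondegenerate form outside this ball.
-/

set_option autoImplicit false

open scoped Manifold ContDiff
open MeasureTheory

namespace Pool.Agent.Results.MP_bf98aa_gt.NearSymplectic

open Pool.Agent.Work.MP_bf98aa_gt.St

theorem result (n : ℕ) (hn : 2 ≤ n) (M : Type) [TopologicalSpace M] [T2Space M] [CompactSpace M]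
    [ConnectedSpace M] [ChartedSpace (Fin (2 * n) → ℝ) M] [IsManifold 𝓘(ℝ, Fin (2 * n) → ℝ) ∞ M]
    [MeasurableSpace M] [BorelSpace M] (τ w₀ : Bil (Fin (2 * n) → ℝ) M) (hτ : IsSmooth τ)
    (hτ' : Nondeg τ) (hw₀ : IsClosedForm w₀) (μ : Measure M) (hμ : IsVolume τ μ)
    (hpos : 0 < ∫ x, ratio w₀ τ x ∂μ) :
    ∃ (w : Bil (Fin (2 * n) → ℝ) M) (Z C : Set M),
      NearSymplectic τ w Z ∧ Cohomologous w w₀ ∧ IsCell (Fin (2 * n) → ℝ) C ∧
      Z ⊆ interior C ∧ HomotopicOn Cᶜ τ w := by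
  obtain ⟨m, rfl⟩ : ∃ m, n = m + 1 := ⟨n - 1, by omega⟩
  exact Pool.Agent.Work.MP_bf98aa_gt.Ns.near_symplectic (by omega) hτ hτ' hw₀ hμ hpos

end Pool.Agent.Results.MP_bf98aa_gt.NearSymplectic
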